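import Pool.Agent.H57.UGB.Api

/-!
# Specialisation: forms of degree `d` and values for the superfluous coefficients
-/

set_option autoImplicit false

open MvPolynomial

namespace Pool.Agent.H57.UGB

open Pool.Agent.H47.KB

/-- The coefficients of `F` of degree `d`, and the numbers `t α` for the superfluous indices. -/
noncomputable def sp {n : ℕ} (d : ℕ) (t : (Fin (n + 2) →₀ ℕ) → ℂ) (F : Frm n) : (Fin (n + 2) →₀ ℕ) → ℂ := fun α =>
  if α ∈ (Finset.univ : Finset (Fin (n + 2))).finsuppAntidiag d then F.coeff α else t α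

theorem gen_congr {n d : ℕ} {R : Type} [CommRing R] {a b : (Fin (n + 2) →₀ ℕ) → R}
    (h : ∀ α ∈ (Finset.univ : Finset (Fin (n + 2))).finsuppAntidiag d, a α = b α) : gen n d a = gen n d b := by
  unfold gen
  exact Finset.sum_congr rfl fun α hα => by rw [h α hα]

theorem gen_sp {n d : ℕ} (t : (Fin (n + 2) →₀ ℕ) → ℂ) {F : Frm n} (hF : F.IsHomogeneous d) :
    gen n d (sp d t F) = F := by
  rw [← gen_coeff hF]
  refine gen_congr fun α hα => ?_
  unfold sp
  rw [if_pos hα]
  rw [gen_coeff hF]

theorem gen_hom (n d : ℕ) {R : Type} [CommRing R] (a : (Fin (n + 2) →₀ ℕ) → R) :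
    (gen n d a).IsHomogeneous d := by
  unfold gen
  refine IsHomogeneous.sum _ _ _ fun α hα => isHomogeneous_monomial _ ?_
  rw [Finset.mem_finsuppAntidiag] at hα
  rw [← hα.1, Finsupp.degree_eq_sum]

theorem sp_gen {n d : ℕ} (a : (Fin (n + 2) →₀ ℕ) → ℂ) : sp d a (gen n d a) = a := by
  classical
  funext α
  unfold sp gen
  split_ifs with h
  · rw [coeff_sum]
    simp only [coeff_monomial]
    rw [Finset.sum_ite_eq', if_pos h]
  · rfl

end Pool.Agent.H57.UGB
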