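import Pool.Agent.H57.UGB.Defs

/-!
# Block B: elementary facts about the functions on the space of jets
-/

set_option autoImplicit false

open MvPolynomial

namespace Pool.Agent.H57.UGB

open Pool.Agent.H47.KB Pool.Agent.H47.UG

section api

variable {n k : ℕ} {R S : Type} [CommRing R] [Algebra ℂ R] [CommRing S] [Algebra ℂ S]

theorem Dg.mono {c c' : ℕ} {P : JR n k} (h : Dg c P) (hc : c ≤ c') : Dg c' P := fun m hm => (h m hm).trans hc

theorem Dg.add {c : ℕ} {P Q : JR n k} (h : Dg c P) (h' : Dg c Q) : Dg c (P + Q) := by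
  intro m hm
  rw [coeff_add] at hm
  by_cases h1 : coeff m P = 0
  · exact h' m (by simpa [h1] using hm)
  · exact h m h1

theorem dg_zero (c : ℕ) : Dg c (0 : JR n k) := fun m hm => absurd (coeff_zero m) hm

theorem Dg.sum {ι : Type} {s : Finset ι} {c : ℕ} {P : ι → JR n k} (h : ∀ i ∈ s, Dg c (P i)) :
    Dg c (∑ i ∈ s, P i) := by
  classical
  induction s using Finset.induction_on with
  | empty => simpa using dg_zero c
  | insert a s ha ih =>
    rw [Finset.sum_insert ha]
    exact (h a (Finset.mem_insert_self a s)).add (ih fun i hi => h i (Finset.mem_insert_of_mem hi))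

theorem Dg.mul {c c' : ℕ} {P Q : JR n k} (h : Dg c P) (h' : Dg c' Q) : Dg (c + c') (P * Q) := by
  classical
  intro m hm
  rw [coeff_mul] at hm
  obtain ⟨x, hx, hx'⟩ := Finset.exists_ne_zero_of_sum_ne_zero hm
  have h1 := h x.1 (left_ne_zero_of_mul hx')
  have h2 := h' x.2 (right_ne_zero_of_mul hx')
  rw [Finset.HasAntidiagonal.mem_antidiagonal] at hx
  rw [← hx, map_add]
  exact add_le_add h1 h2

theorem dg_C (c : ℕ) (z : ℂ) : Dg c (C z : JR n k) := by
  classical
  intro m hm
  rw [coeff_C] at hm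
  by_cases h : 0 = m
  · rw [← h, map_zero]
    exact Nat.zero_le _
  · exact absurd (if_neg h) hm

theorem Dg.pow {c : ℕ} {P : JR n k} (h : Dg c P) (r : ℕ) : Dg (r * c) (P ^ r) := by
  induction r with
  | zero =>
    rw [pow_zero, zero_mul, ← C_1]
    exact dg_C 0 1
  | succ r ih =>
    rw [pow_succ, Nat.succ_mul]
    exact ih.mul h

theorem Dg.smul {c : ℕ} {P : JR n k} (h : Dg c P) (z : ℂ) : Dg c (z • P) := by
  rw [smul_eq_C_mul]
  simpa using (dg_C 0 z).mul h

theorem Dg.neg {c : ℕ} {P : JR n k} (h : Dg c P) : Dg c (-P) := by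
  simpa using h.smul (-1)

theorem Dg.sub {c : ℕ} {P Q : JR n k} (h : Dg c P) (h' : Dg c Q) : Dg c (P - Q) := by
  rw [sub_eq_add_neg]
  exact h.add h'.neg

theorem dg_X (v : Vr n k) : Dg (wv n k v) (X v : JR n k) := by
  classical
  intro m hm
  rw [X, coeff_monomial] at hm
  by_cases h : Finsupp.single v 1 = m
  · rw [← h, Finsupp.weight_single, one_smul]
  · exact absurd (if_neg h) hm

theorem dg_inl (c : ℕ) (α : Fin (n + 2) →₀ ℕ) : Dg c (X (Sum.inl α) : JR n k) :=
  (dg_X (n := n) (k := k) (Sum.inl α)).mono (Nat.zero_le c)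

theorem dg_inr (v : Fin (n + 2) × Fin (k + 1)) : Dg ((v.2 : ℕ) + 1) (X (Sum.inr v) : JR n k) :=
  dg_X (n := n) (k := k) (Sum.inr v)

theorem exists_dg (P : JR n k) : ∃ c, Dg c P :=
  ⟨P.support.sup fun m => Finsupp.weight (wv n k) m, fun _ hm =>
    Finset.le_sup (f := fun m => Finsupp.weight (wv n k) m) (mem_support_iff.2 hm)⟩

/-- power series all of whose coefficients of order `s ≤ k` have weight at most `c + s` -/
theorem Dg.coeff_mul {c c' : ℕ} {f g : PowerSeries (JR n k)} {s : ℕ}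
    (hf : ∀ i ≤ s, Dg (c + i) (PowerSeries.coeff i f)) (hg : ∀ i ≤ s, Dg (c' + i) (PowerSeries.coeff i g)) :
    Dg (c + c' + s) (PowerSeries.coeff s (f * g)) := by
  rw [PowerSeries.coeff_mul]
  refine Dg.sum fun x hx => ?_
  rw [Finset.HasAntidiagonal.mem_antidiagonal] at hx
  exact ((hf x.1 (by omega)).mul (hg x.2 (by omega))).mono (by omega)

@[simp] theorem pt_inl (a : (Fin (n + 2) →₀ ℕ) → R) (y : Fin (n + 2) → PowerSeries R)
    (α : Fin (n + 2) →₀ ℕ) : pt a y (X (Sum.inl α) : JR n k) = a α := by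
  simp [pt]

@[simp] theorem pt_inr (a : (Fin (n + 2) →₀ ℕ) → R) (y : Fin (n + 2) → PowerSeries R)
    (v : Fin (n + 2) × Fin (k + 1)) :
    pt a y (X (Sum.inr v) : JR n k) = PowerSeries.coeff (v.2 : ℕ) (y v.1) := by
  simp [pt]

theorem pt_congr {a : (Fin (n + 2) →₀ ℕ) → R} {y y' : Fin (n + 2) → PowerSeries R}
    (h : ∀ j, ∀ s ≤ k, PowerSeries.coeff s (y j) = PowerSeries.coeff s (y' j)) (P : JR n k) :
    pt a y P = pt a y' P := by
  have : (fun v : Fin (n + 2) × Fin (k + 1) => PowerSeries.coeff (v.2 : ℕ) (y v.1)) =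
      fun v => PowerSeries.coeff (v.2 : ℕ) (y' v.1) := by
    funext v
    exact h v.1 v.2 (by omega)
  unfold pt
  rw [this]

/-- `pt` is functorial. -/
theorem map_pt (f : R →ₐ[ℂ] S) (a : (Fin (n + 2) →₀ ℕ) → R) (y : Fin (n + 2) → PowerSeries R) (P : JR n k) :
    f (pt a y P) = pt (fun α => f (a α)) (fun j => PowerSeries.map (f : R →+* S) (y j)) P := by
  have h : f.comp (pt a y) = (pt (fun α => f (a α)) (fun j => PowerSeries.map (f : R →+* S) (y j)) :
      JR n k →ₐ[ℂ] S) := by
    refine algHom_ext fun v => ?_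
    rcases v with α | v
    · simp [pt]
    · simp [pt]
  exact congrArg (fun g => g P) h

/-- An algebra map out of the ring of jets is `pt` of its values. -/
theorem eq_pt (f : JR n k →ₐ[ℂ] R) (P : JR n k) :
    f P = pt (fun α => f (X (Sum.inl α)))
      (fun j => PowerSeries.mk fun s => if h : s < k + 1 then f (X (Sum.inr (j, ⟨s, h⟩))) else 0) P := by
  have h : f = (pt (fun α => f (X (Sum.inl α)))
      (fun j => PowerSeries.mk fun s => if h : s < k + 1 then f (X (Sum.inr (j, ⟨s, h⟩))) else 0) :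
      JR n k →ₐ[ℂ] R) := by
    refine algHom_ext fun v => ?_
    rcases v with α | v
    · simp [pt]
    · rw [pt_inr, PowerSeries.coeff_mk, dif_pos v.2.2]
  exact congrArg (fun g => g P) h

/-- the coefficient of `t^s`, `s ≤ k`, of the universal jet -/
theorem coeff_uy (j : Fin (n + 2)) (s : Fin (k + 1)) :
    PowerSeries.coeff (s : ℕ) (uy n k j) = X (Sum.inr (j, s)) := by
  unfold uy
  rw [PowerSeries.coeff_mk, dif_pos s.2]

theorem coeff_uy_of_le (j : Fin (n + 2)) {s : ℕ} (hs : s ≤ k) :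
    PowerSeries.coeff s (uy n k j) = X (Sum.inr (j, ⟨s, Nat.lt_succ_of_le hs⟩)) := by
  unfold uy
  rw [PowerSeries.coeff_mk, dif_pos (Nat.lt_succ_of_le hs)]

theorem coeff_uy_of_lt (j : Fin (n + 2)) {s : ℕ} (hs : k < s) : PowerSeries.coeff s (uy n k j) = 0 := by
  unfold uy
  rw [PowerSeries.coeff_mk, dif_neg (by omega)]

theorem dg_coeff_uy (j : Fin (n + 2)) (s : ℕ) : Dg (s + 1) (PowerSeries.coeff s (uy n k j)) := by
  by_cases hs : s ≤ k
  · rw [coeff_uy_of_le j hs]
    exact dg_inr (n := n) (k := k) (j, ⟨s, Nat.lt_succ_of_le hs⟩)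
  · rw [coeff_uy_of_lt j (by omega)]
    exact dg_zero _

/-- The image of the universal jet under `pt a y` is `y` up to order `k`. -/
theorem coeff_map_uy (a : (Fin (n + 2) →₀ ℕ) → R) (y : Fin (n + 2) → PowerSeries R) (j : Fin (n + 2))
    {s : ℕ} (hs : s ≤ k) :
    PowerSeries.coeff s (PowerSeries.map ((pt a y : JR n k →ₐ[ℂ] R) : JR n k →+* R) (uy n k j)) =
      PowerSeries.coeff s (y j) := by
  rw [PowerSeries.coeff_map, coeff_uy_of_le j hs]
  simp

/-- Equality of power series modulo `t^{k+1}`. -/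
def Eqk (k : ℕ) {R : Type} [CommRing R] (f g : PowerSeries R) : Prop :=
  ∀ s ≤ k, PowerSeries.coeff s f = PowerSeries.coeff s g

theorem Eqk.refl (k : ℕ) {R : Type} [CommRing R] (f : PowerSeries R) : Eqk k f f := fun _ _ => rfl

theorem Eqk.symm {k : ℕ} {R : Type} [CommRing R] {f g : PowerSeries R} (h : Eqk k f g) : Eqk k g f :=
  fun s hs => (h s hs).symm

theorem Eqk.trans {k : ℕ} {R : Type} [CommRing R] {f g h : PowerSeries R} (h1 : Eqk k f g) (h2 : Eqk k g h) :
    Eqk k f h := fun s hs => (h1 s hs).trans (h2 s hs)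

theorem Eqk.add {k : ℕ} {R : Type} [CommRing R] {f g f' g' : PowerSeries R} (h : Eqk k f g) (h' : Eqk k f' g') :
    Eqk k (f + f') (g + g') := fun s hs => by rw [map_add, map_add, h s hs, h' s hs]

theorem Eqk.mul {k : ℕ} {R : Type} [CommRing R] {f g f' g' : PowerSeries R} (h : Eqk k f g) (h' : Eqk k f' g') :
    Eqk k (f * f') (g * g') := fun s hs => by
  rw [PowerSeries.coeff_mul, PowerSeries.coeff_mul]
  refine Finset.sum_congr rfl fun x hx => ?_
  rw [Finset.HasAntidiagonal.mem_antidiagonal] at hx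
  rw [h x.1 (by omega), h' x.2 (by omega)]

theorem Eqk.pow {k : ℕ} {R : Type} [CommRing R] {f g : PowerSeries R} (h : Eqk k f g) (r : ℕ) :
    Eqk k (f ^ r) (g ^ r) := by
  induction r with
  | zero => exact fun s _ => by rw [pow_zero, pow_zero]
  | succ r ih =>
    rw [pow_succ, pow_succ]
    exact ih.mul h

theorem Eqk.prod {ι : Type} {k : ℕ} {R : Type} [CommRing R] {s : Finset ι} {f g : ι → PowerSeries R}
    (h : ∀ i ∈ s, Eqk k (f i) (g i)) : Eqk k (∏ i ∈ s, f i) (∏ i ∈ s, g i) := by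
  classical
  induction s using Finset.induction_on with
  | empty => exact fun s _ => by rw [Finset.prod_empty, Finset.prod_empty]
  | insert a s ha ih =>
    rw [Finset.prod_insert ha, Finset.prod_insert ha]
    exact (h a (Finset.mem_insert_self a s)).mul (ih fun i hi => h i (Finset.mem_insert_of_mem hi))

theorem Eqk.sum {ι : Type} {k : ℕ} {R : Type} [CommRing R] {s : Finset ι} {f g : ι → PowerSeries R}
    (h : ∀ i ∈ s, Eqk k (f i) (g i)) : Eqk k (∑ i ∈ s, f i) (∑ i ∈ s, g i) := by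
  intro r hr
  rw [map_sum, map_sum]
  exact Finset.sum_congr rfl fun i hi => h i hi r hr

/-- The value of the form at a curve. -/
theorem aeval_gen (n d : ℕ) {R : Type} [CommRing R] (a : (Fin (n + 2) →₀ ℕ) → R)
    (y : Fin (n + 2) → PowerSeries R) :
    aeval y (gen n d a) = ∑ α ∈ (Finset.univ : Finset (Fin (n + 2))).finsuppAntidiag d,
      PowerSeries.C (a α) * ∏ j, y j ^ α j := by
  unfold gen
  rw [map_sum]
  refine Finset.sum_congr rfl fun α _ => ?_
  rw [aeval_monomial, Finsupp.prod_fintype _ _ (fun _ => pow_zero _)]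
  rfl

theorem eqk_gen (n d : ℕ) {k : ℕ} {R : Type} [CommRing R] (a : (Fin (n + 2) →₀ ℕ) → R)
    {y y' : Fin (n + 2) → PowerSeries R} (h : ∀ j, Eqk k (y j) (y' j)) :
    Eqk k (aeval y (gen n d a)) (aeval y' (gen n d a)) := by
  rw [aeval_gen, aeval_gen]
  exact Eqk.sum fun α _ => (Eqk.refl k _).mul (Eqk.prod fun j _ => (h j).pow _)

theorem pt_Fc (d : ℕ) {s : ℕ} (hs : s ≤ k) (a : (Fin (n + 2) →₀ ℕ) → R) (y : Fin (n + 2) → PowerSeries R) :
    pt a y (Fc n d k s) = PowerSeries.coeff s (aeval y (gen n d a)) := by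
  have h1 : PowerSeries.map ((pt a y : JR n k →ₐ[ℂ] R) : JR n k →+* R) (aeval (uy n k) (gen n d (ua n k))) =
      aeval (fun j => PowerSeries.map ((pt a y : JR n k →ₐ[ℂ] R) : JR n k →+* R) (uy n k j)) (gen n d a) := by
    rw [aeval_gen, aeval_gen, map_sum]
    refine Finset.sum_congr rfl fun α _ => ?_
    rw [map_mul, map_prod, PowerSeries.map_C]
    congr 1
    · congr 1
      simp [ua]
    · exact Finset.prod_congr rfl fun j _ => map_pow _ _ _
  have h2 : pt a y (Fc n d k s) = PowerSeries.coeff s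
      (PowerSeries.map ((pt a y : JR n k →ₐ[ℂ] R) : JR n k →+* R) (aeval (uy n k) (gen n d (ua n k)))) := by
    rw [PowerSeries.coeff_map]
    rfl
  rw [h2, h1]
  exact eqk_gen n d a (fun j s hs => coeff_map_uy a y j hs) s hs

theorem map_gen (n d : ℕ) {R S : Type} [CommRing R] [CommRing S] (f : R →+* S) (a : (Fin (n + 2) →₀ ℕ) → R) :
    map f (gen n d a) = gen n d fun α => f (a α) := by
  unfold gen
  rw [map_sum]
  exact Finset.sum_congr rfl fun α _ => map_monomial f α (a α)

omit [Algebra ℂ R] in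
theorem FL_congr (d : ℕ) {a : (Fin (n + 2) →₀ ℕ) → R} {y y' : Fin (n + 2) → PowerSeries R}
    (h : ∀ j, PowerSeries.constantCoeff (y j) = PowerSeries.constantCoeff (y' j)) : FL d a y = FL d a y' := by
  unfold FL
  have : (fun j => PowerSeries.constantCoeff (y j)) = fun j => PowerSeries.constantCoeff (y' j) := funext h
  rw [this]

theorem map_FL (d : ℕ) {R S : Type} [CommRing R] [CommRing S] (f : R →+* S) (a : (Fin (n + 2) →₀ ℕ) → R)
    (y : Fin (n + 2) → PowerSeries R) :
    f (FL d a y) = FL d (fun α => f (a α)) fun j => PowerSeries.map f (y j) := by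
  unfold FL
  rw [← map_gen, pderiv_map, eval_map]
  have h := eval₂_comp_left f (RingHom.id R) (fun j => PowerSeries.constantCoeff (y j))
    (pderiv (Fin.last (n + 1)) (gen n d a))
  rw [RingHom.comp_id] at h
  refine (Eq.trans ?_ h).trans ?_
  · rfl
  · congr 1

theorem pt_FL (d : ℕ) (a : (Fin (n + 2) →₀ ℕ) → R) (y : Fin (n + 2) → PowerSeries R) :
    pt a y (FL d (ua n k) (uy n k)) = FL d a y := by
  have h := map_FL (n := n) d ((pt a y : JR n k →ₐ[ℂ] R) : JR n k →+* R) (ua n k) (uy n k)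
  have h1 : (fun α => ((pt a y : JR n k →ₐ[ℂ] R) : JR n k →+* R) (ua n k α)) = a := by
    funext α
    simp [ua]
  rw [h1] at h
  refine h.trans (FL_congr d fun j => ?_)
  rw [← PowerSeries.coeff_zero_eq_constantCoeff_apply, ← PowerSeries.coeff_zero_eq_constantCoeff_apply]
  exact coeff_map_uy a y j (Nat.zero_le k)

/-- The values of a derivation, as a tangent vector. -/
theorem der_apply (V : Derivation ℂ (JR n k) (JR n k)) (P : JR n k) (s : Finset (Vr n k)) (hs : P.vars ⊆ s) :
    V P = ∑ v ∈ s, pderiv v P * V (X v) := by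
  classical
  have h : P ∈ supported ℂ (s : Set (Vr n k)) := mem_supported.2 (by exact_mod_cast hs)
  unfold supported at h
  clear hs
  induction h using Algebra.adjoin_induction with
  | mem x hx =>
    obtain ⟨v, hv, rfl⟩ := hx
    rw [Finset.sum_eq_single v]
    · rw [pderiv_X_self, one_mul]
    · intro u _ hu
      rw [pderiv_X_of_ne hu.symm, zero_mul]
    · intro h
      exact absurd hv h
  | algebraMap r =>
    rw [Derivation.map_algebraMap, Finset.sum_eq_zero]
    intro v _
    rw [algebraMap_eq, pderiv_C, zero_mul]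
  | add x y _ _ hx hy =>
    rw [map_add, hx, hy, ← Finset.sum_add_distrib]
    refine Finset.sum_congr rfl fun v _ => ?_
    rw [map_add, add_mul]
  | mul x y _ _ hx hy =>
    rw [Derivation.leibniz, hx, hy, smul_eq_mul, smul_eq_mul, Finset.mul_sum, Finset.mul_sum,
      ← Finset.sum_add_distrib]
    refine Finset.sum_congr rfl fun v _ => ?_
    rw [Derivation.leibniz, smul_eq_mul, smul_eq_mul]
    ring

/-- The ring map to the ring of dual numbers belonging to a derivation. -/
theorem pt_eps (V : Derivation ℂ (JR n k) (JR n k)) (a : (Fin (n + 2) →₀ ℕ) → R)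
    (y : Fin (n + 2) → PowerSeries R) (P : JR n k) :
    pt (fun α => (TrivSqZeroExt.inl (a α) + TrivSqZeroExt.inr (pt a y (V (X (Sum.inl α)))) : TrivSqZeroExt R R))
      (fun j => PowerSeries.mk fun s => (TrivSqZeroExt.inl (PowerSeries.coeff s (y j)) + TrivSqZeroExt.inr
        (if h : s < k + 1 then pt a y (V (X (Sum.inr (j, ⟨s, h⟩)))) else 0) : TrivSqZeroExt R R)) P =
      TrivSqZeroExt.inl (pt a y P) + TrivSqZeroExt.inr (pt a y (V P)) := by
  induction P using MvPolynomial.induction_on with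
  | C z =>
    rw [← algebraMap_eq, AlgHom.commutes, Derivation.map_algebraMap, map_zero, AlgHom.commutes,
      TrivSqZeroExt.inr_zero, add_zero]
    rfl
  | add p q hp hq =>
    rw [map_add, hp, hq, map_add, map_add, map_add, TrivSqZeroExt.inl_add, TrivSqZeroExt.inr_add]
    abel
  | mul_X p v hp =>
    rw [map_mul, hp, Derivation.leibniz, map_mul, map_add, smul_eq_mul, smul_eq_mul, map_mul, map_mul]
    have hX : pt (fun α => (TrivSqZeroExt.inl (a α) + TrivSqZeroExt.inr (pt a y (V (X (Sum.inl α)))) :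
        TrivSqZeroExt R R))
      (fun j => PowerSeries.mk fun s => (TrivSqZeroExt.inl (PowerSeries.coeff s (y j)) + TrivSqZeroExt.inr
        (if h : s < k + 1 then pt a y (V (X (Sum.inr (j, ⟨s, h⟩)))) else 0) : TrivSqZeroExt R R)) (X v) =
        TrivSqZeroExt.inl (pt a y (X v)) + TrivSqZeroExt.inr (pt a y (V (X v))) := by
      rcases v with α | v
      · rw [pt_inl, pt_inl]
      · rw [pt_inr, pt_inr, PowerSeries.coeff_mk, dif_pos v.2.2]
    rw [hX]
    ext
    · simp
    · simp
      ring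

theorem Neg.mul {d e : ℕ} {c : Cof n} {P : JR n k} (h : Neg n d k c e P) (c' : Cof n) :
    Neg n d k (c * c') e P := by
  intro i
  obtain ⟨Q, hQ⟩ := h i
  refine ⟨Q, fun R _ _ a y u h1 h2 h3 h4 h5 h6 h7 => hQ R a y u h1 h2 h3 h4 ?_ h6 h7⟩
  rw [map_mul] at h5
  exact isUnit_of_mul_isUnit_left h5

theorem Neg.mul_left {d e : ℕ} {c : Cof n} {P : JR n k} (h : Neg n d k c e P) (c' : Cof n) :
    Neg n d k (c' * c) e P := by
  rw [mul_comm]
  exact h.mul c'

/-- A form is the member of the universal family with its coefficients. -/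
theorem gen_coeff {n d : ℕ} {F : Frm n} (hF : F.IsHomogeneous d) : gen n d (fun α => F.coeff α) = F := by
  classical
  ext m
  unfold gen
  rw [coeff_sum]
  simp only [coeff_monomial]
  rw [Finset.sum_ite_eq' ]
  split_ifs with h
  · rfl
  · by_contra hc
    apply h
    rw [Finset.mem_finsuppAntidiag]
    refine ⟨?_, Finset.subset_univ _⟩
    have h1 := hF (Ne.symm hc)
    rw [Finsupp.weight_apply, Finsupp.sum_fintype _ _ (by simp)] at h1
    simpa using h1

end api

end Pool.Agent.H57.UGB
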