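import Pool.Agent.H57.UGB.Defs

/-!
# Polynomials without the variables `X_{0,s}` and `X_{n+1,s}`, `s ≥ 1`
-/

set_option autoImplicit false

open MvPolynomial

namespace Pool.Agent.H57.UGB

/-- `E` does not contain the variables `X_{0,s}` and `X_{n+1,s}`, `s ≥ 1`. -/
def Free {n k : ℕ} (E : JR n k) : Prop :=
  ∀ v : Fin (n + 2) × Fin (k + 1), Sum.inr v ∈ E.vars → v.1 ≠ 0 ∧ (v.1 = Fin.last (n + 1) → v.2 = 0)

end Pool.Agent.H57.UGB
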