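import Pool.Agent.H47.UG.Lat
import Pool.Agent.H8.UGC.BDefs2

/-!
# Block B: slanted vector fields on the universal space of jets, definitions

Jets are given by Taylor coefficients. A point of the universal space of jets over a ring `R` is a pair
`(a, y)`: `a` the coefficients of the form, `y j` the power series of the coordinate `j` (only the coefficients
of order `≤ k` count).
-/

set_option autoImplicit false

open MvPolynomial

namespace Pool.Agent.H57.UGB

open Pool.Agent.H47.KB

/-- Variables: the coefficients of the form and the Taylor coefficients `X_{j,s}`, `s ≤ k`. -/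
abbrev Vr (n k : ℕ) := (Fin (n + 2) →₀ ℕ) ⊕ (Fin (n + 2) × Fin (k + 1))

/-- Functions on the universal space of jets. -/
abbrev JR (n k : ℕ) := MvPolynomial (Vr n k) ℂ

/-- The form of degree `d` with coefficients `a`. -/
noncomputable def gen {R : Type} [CommRing R] (n d : ℕ) (a : (Fin (n + 2) →₀ ℕ) → R) :
    MvPolynomial (Fin (n + 2)) R :=
  ∑ α ∈ (Finset.univ : Finset (Fin (n + 2))).finsuppAntidiag d, monomial α (a α)

/-- Evaluation at the point `(a, y)`. -/
noncomputable def pt {n k : ℕ} {R : Type} [CommRing R] [Algebra ℂ R] (a : (Fin (n + 2) →₀ ℕ) → R)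
    (y : Fin (n + 2) → PowerSeries R) : JR n k →ₐ[ℂ] R :=
  aeval (Sum.elim a fun v => PowerSeries.coeff (v.2 : ℕ) (y v.1))

/-- `(a, y)` is a `k`-jet of a curve in the hypersurface. -/
def OnT (d k : ℕ) {n : ℕ} {R : Type} [CommRing R] (a : (Fin (n + 2) →₀ ℕ) → R)
    (y : Fin (n + 2) → PowerSeries R) : Prop :=
  ∀ s ≤ k, PowerSeries.coeff s (aeval y (gen n d a)) = 0

/-- The value of `∂F/∂X_{n+1}` at the point of the jet. -/
noncomputable def FL (d : ℕ) {n : ℕ} {R : Type} [CommRing R] (a : (Fin (n + 2) →₀ ℕ) → R)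
    (y : Fin (n + 2) → PowerSeries R) : R :=
  eval (fun j => PowerSeries.constantCoeff (y j)) (pderiv (Fin.last (n + 1)) (gen n d a))

/-- The universal coefficients. -/
noncomputable def ua (n k : ℕ) : (Fin (n + 2) →₀ ℕ) → JR n k := fun α => X (Sum.inl α)

/-- The universal jet. -/
noncomputable def uy (n k : ℕ) : Fin (n + 2) → PowerSeries (JR n k) := fun j =>
  PowerSeries.mk fun s => if h : s < k + 1 then X (Sum.inr (j, ⟨s, h⟩)) else 0

/-- The equations of the universal space of jets. -/
noncomputable def Fc (n d k s : ℕ) : JR n k := PowerSeries.coeff s (aeval (uy n k) (gen n d (ua n k)))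

/-- Weights: `X_{j,s}` has weight `s + 1` (the order of the pole along `x_0 = 0`). -/
def wv (n k : ℕ) : Vr n k → ℕ := Sum.elim (fun _ => 0) fun v => (v.2 : ℕ) + 1

/-- `P` has weight at most `c`. -/
def Dg {n k : ℕ} (c : ℕ) (P : JR n k) : Prop := ∀ m, coeff m P ≠ 0 → Finsupp.weight (wv n k) m ≤ c

/-- Slanted vector fields with poles of order at most `5k` along `x_0 = 0`. -/
structure IsFld (n d k : ℕ) (V : Derivation ℂ (JR n k) (JR n k)) : Prop where
  deg : ∀ v, Dg (5 * k) (V (X v))
  zero : ∀ j, V (X (Sum.inr (j, 0))) = 0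
  nrm : ∀ s, V (X (Sum.inr (0, s))) = 0
  kill : ∀ s ≤ k, ∀ (R : Type) [CommRing R] [Algebra ℂ R] (a : (Fin (n + 2) →₀ ℕ) → R)
    (y : Fin (n + 2) → PowerSeries R), y 0 = 1 → pt a y (V (Fc n d k s)) = 0

/-- `P` is a section of `O(-e)` over the space of jets of the hypersurfaces with `c ≠ 0`, over the points with
`F_{n+1} ≠ 0`. -/
def Neg (n d k : ℕ) (c : Cof n) (e : ℕ) (P : JR n k) : Prop :=
  ∀ i : Fin (n + 2), ∃ Q : JR n k, ∀ (R : Type) [CommRing R] [Algebra ℂ R] (a : (Fin (n + 2) →₀ ℕ) → R)
    (y u : Fin (n + 2) → PowerSeries R), OnT d k a y → y 0 = 1 → u i = 1 → (∀ j, u j * y i = y j) →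
    IsUnit (aeval a c) → IsUnit (FL d a y) → IsUnit (PowerSeries.constantCoeff (y i)) →
    PowerSeries.constantCoeff (y i) ^ e * pt a y P = pt a u Q

/-- Composition of derivations. -/
noncomputable def wd {n k : ℕ} (w : List (Derivation ℂ (JR n k) (JR n k))) (P : JR n k) : JR n k :=
  w.foldr (fun V Q => V Q) P

/-- A word of slanted fields. -/
def IsWd (n d k : ℕ) (w : List (Derivation ℂ (JR n k) (JR n k))) : Prop := ∀ V ∈ w, IsFld n d k V

/-- The polynomial `Q` vanishes to order at least `p` at the point `c`. -/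
def VanK {Λ : Type} [Field Λ] {σ : Type} (p : ℕ) (Q : MvPolynomial σ Λ) (c : σ → Λ) : Prop :=
  ∀ a : σ →₀ ℕ, a.degree < p → coeff a (aeval (fun i => (X i + C (c i) : MvPolynomial σ Λ)) Q) = 0

/-- The field of rational functions in the coefficients. -/
abbrev KK (n : ℕ) := FractionRing (Cof n)

/-- The generic form. -/
noncomputable def genK (n d : ℕ) : Pool.Agent.H47.UG.HP (KK n) n :=
  gen n d fun α => algebraMap (Cof n) (KK n) (X α)

section ff

variable {n d : ℕ} (T : Pool.Agent.H47.UG.FF d (genK n d)) (k : ℕ)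

/-- The functions on the fibre `ℂ^{kn}` of the space of `k`-jets over the generic point. -/
abbrev Bk := MvPolynomial (Fin k × Fin n) T.L

/-- Jets of order at most `k`. -/
noncomputable def rk : T.BB →ₐ[T.L] Bk T k :=
  aeval fun p => if h : p.1 < k then (X (⟨p.1, h⟩, p.2) : Bk T k) else 0

/-- The Taylor series of the function `v` on the hypersurface. -/
noncomputable def ser (v : T.L) : PowerSeries (Bk T k) :=
  PowerSeries.mk fun s => C (algebraMap (KK n) T.L ((s.factorial : KK n)⁻¹)) *
    rk T k ((T.D : T.BB → T.BB)^[s] (C v))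

noncomputable instance : Algebra ℂ T.L := ((algebraMap (KK n) T.L).comp (algebraMap ℂ (KK n))).toAlgebra

/-- The generic coefficients in the ring of functions on the fibre. -/
noncomputable def aK : (Fin (n + 2) →₀ ℕ) → Bk T k := fun α =>
  C (algebraMap (KK n) T.L (algebraMap (Cof n) (KK n) (X α)))

/-- The generic point of the universal space of jets. -/
noncomputable def zk : JR n k →ₐ[ℂ] Bk T k := pt (aK T k) fun j => ser T k (T.x j)

end ff

end Pool.Agent.H57.UGB
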