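import Pool.Agent.H57.UGB.Sp
import Pool.Agent.H18.UG.Hom
import Pool.Agent.H99.UGB.Ser
import Pool.Agent.H45.UGB.Rep
import Pool.Agent.H36.UGB.Ker
import Pool.Agent.H52.UGB.Neg0

/-!
# Block B: the jet differentials of negative twist, final form
-/

set_option autoImplicit false

open MvPolynomial

namespace Pool.Agent.H57.UGB

open Pool.Agent.H47.KB Pool.Agent.H47.UG

theorem neg0 {n d : ℕ} (T : FF d (genK n d)) (k : ℕ) (hk : 1 ≤ k) (hd : 1 ≤ d) (b m : ℕ) (σ : T.BB)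
    (hσ : σ ∈ FF.H0 (T.EE k (-(b : ℤ)) m)) :
    ∃ c : Cof n, c ≠ 0 ∧ ∃ P : JR n k, zk T k P = aeval (aK T k) c * rk T k σ ∧ Neg n d k c b P :=
  neg0_of T k (rep T k) (link T k hk hd) (hom n k) exists_dg (ser_one T k) (ser_mul T k)
    (coeff_ser_zero T k) b m σ hσ

end Pool.Agent.H57.UGB
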