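import Pool.Agent.H57.UGB.Main
import Pool.Agent.H47.UG.Many
import Pool.Agent.H47.UG.GenF
import Pool.Agent.H47.UG.FFex
import Pool.Agent.H47.UG.Kdim

/-!
# The Green-Griffiths-Lang property for Brody curves in general hypersurfaces of degree `d ≥ C n² (1 + log n)²`
-/

set_option autoImplicit false

open MvPolynomial

namespace Pool.Agent.H57.UGB

open Pool.Agent.H47.KB Pool.Agent.H47.UG

/-- Outside a proper Zariski closed subset of the universal hypersurface of degree `d ≥ C n² (1 + log n)²` there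
are no points of Brody curves. -/
theorem gglc {n d : ℕ} (hn : 2 ≤ n) (hd : 100000 * (n : ℝ) ^ 2 * (1 + Real.log n) ^ 2 ≤ d) :
    Pool.Agent.H8.UGC.GGLC n d := by
  have hd2 : 2 ≤ d := by
    have h1 : (2 : ℝ) ≤ n := by exact_mod_cast hn
    have h2 : 0 ≤ Real.log n := Real.log_nonneg (by linarith)
    have h3 : (2 : ℝ) ≤ d := by
      nlinarith [mul_nonneg (by positivity : (0 : ℝ) ≤ 100000 * (n : ℝ) ^ 2)
        (by positivity : 0 ≤ 2 * Real.log n + Real.log n ^ 2)]
    exact_mod_cast h3
  have hF : Nice d (genK n d) := nice_gen hn hd2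
  obtain ⟨T⟩ := exists_FF (by omega) hd2 hF
  obtain ⟨k, m, b, p, hk, hkd, hpb, H, hH, hfin, hdim⟩ := T.exists_many hF hn hd
  exact gglc_of_sections n d k m b p _ (by omega) hk hkd hpb T H hH hfin hdim fun U hU H' hH' hHU =>
    T.finrank_inter_le hF (by omega) hd2 k m b U hU H' hH' hHU

end Pool.Agent.H57.UGB
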