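import Pool.Agent.H57.UGB.Defs
import Pool.Agent.H34.UGB.Low
import Pool.Agent.H51.UG.Eew

/-!
# Block B: jet differentials of low multiplicity
-/

set_option autoImplicit false

open MvPolynomial

namespace Pool.Agent.H57.UGB

open Pool.Agent.H47.KB Pool.Agent.H47.UG

/-- the index map -/
def l57 (n k : ℕ) : Fin k × Fin n → ℕ × Fin n := fun p => ((p.1 : ℕ), p.2)

theorem l57_inj (n k : ℕ) : Function.Injective (l57 n k) := by
  rintro ⟨a, b⟩ ⟨c, d⟩ h
  simp only [l57, Prod.mk.injEq] at h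
  exact Prod.ext (Fin.ext h.1) h.2

theorem rename_rk {n d : ℕ} (T : FF d (genK n d)) (k : ℕ) (σ : T.BB) (h : ∀ v ∈ σ.vars, v.1 < k) :
    rename (l57 n k) (rk T k σ) = σ := by
  have h1 : σ ∈ supported T.L {v : ℕ × Fin n | v.1 < k} := mem_supported.2 fun v hv => h v hv
  unfold supported at h1
  clear h
  induction h1 using Algebra.adjoin_induction with
  | mem x hx =>
    obtain ⟨v, hv, rfl⟩ := hx
    unfold rk
    rw [aeval_X, dif_pos (show v.1 < k from hv), rename_X]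
    rfl
  | algebraMap r => rw [AlgHom.commutes, AlgHom.commutes]
  | add x y _ _ hx hy => rw [map_add, map_add, hx, hy]
  | mul x y _ _ hx hy => rw [map_mul, map_mul, hx, hy]

theorem low {n d : ℕ} (T : FF d (genK n d)) (k : ℕ) (b m p h : ℕ) (H : Submodule (KK n) T.BB)
    (hH : H ≤ FF.H0 (T.EE k (-(b : ℤ)) m))
    (_hfin : Module.Finite (KK n) H) (hdim : Nat.card (Mon n k m (p + 1)) * h < Module.finrank (KK n) H)
    (hB : ∀ U : Submodule T.L T.BB, FiniteDimensional T.L U → ∀ H' : Submodule (KK n) T.BB,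
      H' ≤ FF.H0 (T.EE k (-(b : ℤ)) m) → (∀ v ∈ H', v ∈ U) →
      FiniteDimensional (KK n) H' ∧ Module.finrank (KK n) H' ≤ Module.finrank T.L U * h)
    {Λ : Type} [Field Λ] [Algebra T.L Λ] (ξ : Fin k × Fin n → Λ) :
    ∃ σ ∈ H, ¬ VanK (p + 1) (map (algebraMap T.L Λ) (rk T k σ)) ξ := by
  classical
  obtain ⟨σ, hσ, hV⟩ := Pool.Agent.H34.UGB.exists_low_of (T := T) hB H hH hdim
    (fun q : ℕ × Fin n => if hq : q.1 < k then ξ (⟨q.1, hq⟩, q.2) else 0)
  refine ⟨σ, hσ, fun hv => hV fun a ha => ?_⟩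
  have hs := (ee_supp T k (-(b : ℤ)) m 0 σ ((Submodule.mem_iInf _).1 (hH hσ) 0)).1
  have e1 : aeval (fun i : ℕ × Fin n => (X i + C (if hq : i.1 < k then ξ (⟨i.1, hq⟩, i.2) else 0) :
      MvPolynomial (ℕ × Fin n) Λ)) σ = rename (l57 n k)
      (aeval (fun i : Fin k × Fin n => (X i + C (ξ i) : MvPolynomial (Fin k × Fin n) Λ))
        (map (algebraMap T.L Λ) (rk T k σ))) := by
    conv_lhs => rw [← rename_rk T k σ hs]
    rw [aeval_rename, aeval_map_algebraMap, ← AlgHom.comp_apply]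
    have : (aeval ((fun i : ℕ × Fin n => (X i + C (if hq : i.1 < k then ξ (⟨i.1, hq⟩, i.2) else 0) :
        MvPolynomial (ℕ × Fin n) Λ)) ∘ l57 n k) : Bk T k →ₐ[T.L] MvPolynomial (ℕ × Fin n) Λ) =
        ((rename (l57 n k) : MvPolynomial (Fin k × Fin n) Λ →ₐ[Λ] MvPolynomial (ℕ × Fin n) Λ).restrictScalars T.L).comp
          (aeval fun i : Fin k × Fin n => (X i + C (ξ i) : MvPolynomial (Fin k × Fin n) Λ)) := by
      refine algHom_ext fun i => ?_
      simp [l57]
    rw [this]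
    rfl
  rw [e1]
  by_cases hc : coeff a (rename (l57 n k) (aeval (fun i : Fin k × Fin n => (X i + C (ξ i) :
      MvPolynomial (Fin k × Fin n) Λ)) (map (algebraMap T.L Λ) (rk T k σ)))) = 0
  · exact hc
  · obtain ⟨u, hu, hu'⟩ := coeff_rename_ne_zero _ _ _ hc
    exfalso
    apply hu'
    refine hv u ?_
    have : u.degree = a.degree := by
      rw [← hu, Finsupp.degree_mapDomain]
    rw [this]
    exact ha

end Pool.Agent.H57.UGB
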