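import Pool.Agent.H57.UGB.Low57
import Pool.Agent.H62.UGB.Final
import Pool.Agent.H81.UGB.OrderF

/-!
# Block B: from many jet differentials to the Green-Griffiths-Lang property for Brody curves
-/

set_option autoImplicit false

open MvPolynomial

namespace Pool.Agent.H57.UGB

open Pool.Agent.H47.KB Pool.Agent.H47.UG

/-- Many jet differentials of negative twist imply the Green-Griffiths-Lang property. -/
theorem gglc_of_sections (n d k m b p h : ℕ) (_hn : 1 ≤ n) (hk : 1 ≤ k) (hd : k + 1 ≤ d)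
    (hb : p * (5 * k) < b) (T : FF d (genK n d)) (H : Submodule (KK n) T.BB)
    (hH : H ≤ FF.H0 (T.EE k (-(b : ℤ)) m)) (hfin : Module.Finite (KK n) H)
    (hdim : Nat.card (Mon n k m (p + 1)) * h < Module.finrank (KK n) H)
    (hB : ∀ U : Submodule T.L T.BB, FiniteDimensional T.L U → ∀ H' : Submodule (KK n) T.BB,
      H' ≤ FF.H0 (T.EE k (-(b : ℤ)) m) → (∀ v ∈ H', v ∈ U) →
      FiniteDimensional (KK n) H' ∧ Module.finrank (KK n) H' ≤ Module.finrank T.L U * h) :
    Pool.Agent.H8.UGC.GGLC n d :=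
  gglc_of_sections_of n d k m b p hk hd hb T H hH hfin
    (fun ξ l hξ P hw => order_lemma T k hk hd ξ l hξ p P hw)
    (fun ξ => low T k b m p h H hH hfin hdim hB ξ)

end Pool.Agent.H57.UGB
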