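import Pool.Agent.H57.UGB.Api

/-!
# The Taylor series of the affine coordinates of a curve (definition)
-/

set_option autoImplicit false

open MvPolynomial

namespace Pool.Agent.H57.UGB

open Pool.Agent.H47.KB

/-- The Taylor series at `z` of the affine coordinates of a curve. -/
noncomputable def tay {n : ℕ} (f : ℂ → Vec n) (i : Fin (n + 2)) (z : ℂ) (j : Fin (n + 2)) : PowerSeries ℂ :=
  PowerSeries.mk fun s => iteratedDeriv s (fun t => f t j / f t i) z / s.factorial

end Pool.Agent.H57.UGB
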